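import Mathlib.Tactic.Ring
import Mathlib.Tactic.Linarith
import Mathlib.Tactic.LinearCombination
import Mathlib.Tactic.Zify
import Mathlib.Tactic.NormNum
import Mathlib.Tactic.Convert
import Mathlib.Data.Nat.Bitwise

/-! Bitset verification of admissible representations on finite ranges. -/

namespace Pool.Agent.Lib.MP_b1de50_nt

def Adm (n : ℕ) : Prop :=
  ∃ x y z w m : ℕ, n = x ^ 2 + y ^ 2 + z ^ 2 + 2 * w ^ 2 ∧ x + 2 * y + 3 * z = m ^ 2

def Rep3 (s : ℕ) : Prop :=
  ∃ x y z m : ℕ, s = x ^ 2 + y ^ 2 + z ^ 2 ∧ x + 2 * y + 3 * z = m ^ 2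

def Valid (q r G : ℕ) : Prop := ∀ k, G.testBit k = true → Rep3 (q * k + r)

def MaskOK (q c M : ℕ) : Prop :=
  ∀ j, M.testBit j = true →
    ∃ σ : ℕ, q * j = 3 * σ ^ 2 + 2 * c * σ ∨ q * j + 2 * c * σ = 3 * σ ^ 2

/-- a loop `i = 0, …, f-1` over a numeric state which is evaluated at every step -/
noncomputable def loop (g : ℕ → ℕ → ℕ) (f : ℕ) : ℕ → ℕ → ℕ :=
  Nat.rec (fun _ a => a)
    (fun _ ih i a => bif Nat.beq a 0 then ih (Nat.succ i) (g i a) else ih (Nat.succ i) (g i a)) f

theorem loop_inv (P : ℕ → Prop) (g : ℕ → ℕ → ℕ) (hg : ∀ i a, P a → P (g i a)) (f : ℕ) :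
    ∀ i a, P a → P (loop g f i a) := by
  induction f with
  | zero => intro i a h; exact h
  | succ f ih =>
    intro i a h
    have : loop g (f + 1) i a = bif Nat.beq a 0 then loop g f (Nat.succ i) (g i a)
      else loop g f (Nat.succ i) (g i a) := rfl
    rw [this, Bool.cond_self]
    exact ih _ _ (hg i a h)

def setBit (q r v a : ℕ) : ℕ :=
  bif Nat.beq (Nat.mod v q) r then Nat.lor a (Nat.pow 2 (Nat.div v q)) else a

theorem setBit_spec (q r v a k : ℕ) (h : (setBit q r v a).testBit k = true) :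
    a.testBit k = true ∨ q * k + r = v := by
  unfold setBit at h
  cases hb : Nat.beq (Nat.mod v q) r
  · rw [hb] at h; exact Or.inl h
  · rw [hb] at h
    have h' : (a ||| 2 ^ (v / q)).testBit k = true := h
    have hr : v % q = r := Nat.eq_of_beq_eq_true hb
    rw [Nat.testBit_or, Bool.or_eq_true, Nat.testBit_two_pow] at h'
    rcases h' with h' | h'
    · exact Or.inl h'
    · right
      have : v / q = k := by simpa using h'
      rw [← this, ← hr]; exact Nat.div_add_mod v q

def maskStep (q c σ a : ℕ) : ℕ :=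
  setBit q 0 (Nat.mul σ (Nat.add (Nat.mul 3 σ) (Nat.mul 2 c)))
    (bif Nat.ble (Nat.mul 2 c) (Nat.mul 3 σ) then
      setBit q 0 (Nat.mul σ (Nat.sub (Nat.mul 3 σ) (Nat.mul 2 c))) a else a)

noncomputable def mask (q c f : ℕ) : ℕ := loop (maskStep q c) f 0 0

theorem mask_ok (q c f : ℕ) : MaskOK q c (mask q c f) := by
  refine loop_inv (MaskOK q c) _ ?_ f 0 0 (by intro j hj; simp at hj)
  intro σ a ha j hj
  rcases setBit_spec _ _ _ _ _ hj with h | h
  · cases hb : Nat.ble (Nat.mul 2 c) (Nat.mul 3 σ)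
    · rw [hb] at h; exact ha j h
    · rw [hb] at h
      have hle : 2 * c ≤ 3 * σ := Nat.le_of_ble_eq_true hb
      rcases setBit_spec _ _ _ _ _ h with h | h
      · exact ha j h
      · refine ⟨σ, Or.inr ?_⟩
        have h' : q * j + 0 = σ * (3 * σ - 2 * c) := h
        obtain ⟨d, hd⟩ := Nat.exists_eq_add_of_le hle
        rw [hd, Nat.add_sub_cancel_left] at h'
        have : 3 * σ ^ 2 = σ * (2 * c + d) := by rw [← hd]; ring
        rw [this]; nlinarith
  · refine ⟨σ, Or.inl ?_⟩
    have h' : q * j + 0 = σ * (3 * σ + 2 * c) := h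
    nlinarith

/-- add the single point `(m² - 2y - 3z, y, z)` -/
def pointStep (q r m y z a : ℕ) : ℕ :=
  bif Nat.ble (Nat.add (Nat.mul 2 y) (Nat.mul 3 z)) (Nat.mul m m) then
    setBit q r (Nat.add (Nat.add
      (Nat.pow (Nat.sub (Nat.mul m m) (Nat.add (Nat.mul 2 y) (Nat.mul 3 z))) 2)
      (Nat.pow y 2)) (Nat.pow z 2)) a
  else a

theorem pointStep_valid (q r m y z a : ℕ) (h : Valid q r a) : Valid q r (pointStep q r m y z a) := by
  unfold pointStep
  cases hb : Nat.ble (Nat.add (Nat.mul 2 y) (Nat.mul 3 z)) (Nat.mul m m)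
  · exact h
  · intro k hk
    have hle : 2 * y + 3 * z ≤ m * m := Nat.le_of_ble_eq_true hb
    rcases setBit_spec _ _ _ _ _ hk with h' | h'
    · exact h k h'
    · refine ⟨m * m - (2 * y + 3 * z), y, z, m, h', ?_⟩
      rw [pow_two]; omega

noncomputable def points (q r mm : ℕ) : ℕ :=
  loop (fun m a => loop (fun y a => loop (fun z a => pointStep q r m y z a)
    (Nat.succ (Nat.div (Nat.mul m m) 3)) 0 a) (Nat.succ (Nat.div (Nat.mul m m) 2)) 0 a) mm 0 0

theorem points_valid (q r mm : ℕ) : Valid q r (points q r mm) := by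
  refine loop_inv (Valid q r) _ ?_ _ _ _ (by intro j hj; simp at hj)
  intro m a ha
  refine loop_inv (Valid q r) _ ?_ _ _ _ ha
  intro y a ha
  refine loop_inv (Valid q r) _ ?_ _ _ _ ha
  intro z a ha
  exact pointStep_valid _ _ _ _ _ _ ha

/-- add the part of the line `(x+t, y+t, z-t)` that is certainly in the positive octant -/
def lineCore (q r B c M s τ a : ℕ) : ℕ :=
  bif Nat.beq (Nat.mod s q) r && Nat.ble (Nat.div s q) B then
    Nat.lor a (Nat.shiftLeft (Nat.mod M (Nat.pow 2 (Nat.min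
      (Nat.div (Nat.mul (Nat.succ τ) (Nat.sub (Nat.mul 3 (Nat.succ τ)) (Nat.mul 2 c))) q)
      (Nat.sub B (Nat.div s q))))) (Nat.div s q))
  else a

def lineStep (q r B c M m x y z a : ℕ) : ℕ :=
  bif Nat.beq (Nat.add (Nat.add x (Nat.mul 2 y)) (Nat.mul 3 z)) (Nat.mul m m)
      && (Nat.beq (Nat.add x y) (Nat.add z c) || Nat.beq (Nat.add (Nat.add x y) c) z) then
    lineCore q r B c M (Nat.add (Nat.add (Nat.mul x x) (Nat.mul y y)) (Nat.mul z z))
      (Nat.min x (Nat.min y z)) a
  else a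

theorem line_rep (x y z m c σ v : ℕ) (h1 : x + 2 * y + 3 * z = m * m)
    (h2 : x + y = z + c ∨ x + y + c = z) (hx : σ ≤ x) (hy : σ ≤ y) (hz : σ ≤ z)
    (hv : v = 3 * σ ^ 2 + 2 * c * σ ∨ v + 2 * c * σ = 3 * σ ^ 2) :
    Rep3 (x * x + y * y + z * z + v) := by
  have up : Rep3 ((x + σ) ^ 2 + (y + σ) ^ 2 + (z - σ) ^ 2) :=
    ⟨x + σ, y + σ, z - σ, m, rfl, by rw [pow_two]; omega⟩
  have dn : Rep3 ((x - σ) ^ 2 + (y - σ) ^ 2 + (z + σ) ^ 2) :=
    ⟨x - σ, y - σ, z + σ, m, rfl, by rw [pow_two]; omega⟩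
  rcases h2 with h2 | h2 <;> rcases hv with hv | hv
  · convert up using 1
    zify [hz] at *
    linear_combination hv - 2 * σ * h2
  · convert dn using 1
    zify [hx, hy] at *
    linear_combination hv + 2 * σ * h2
  · convert dn using 1
    zify [hx, hy] at *
    linear_combination hv + 2 * σ * h2
  · convert up using 1
    zify [hz] at *
    linear_combination hv - 2 * σ * h2

theorem lineStep_valid (q r B c M m x y z a : ℕ) (hM : MaskOK q c M) (h : Valid q r a) :
    Valid q r (lineStep q r B c M m x y z a) := by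
  unfold lineStep
  cases hb : (Nat.beq (Nat.add (Nat.add x (Nat.mul 2 y)) (Nat.mul 3 z)) (Nat.mul m m)
      && (Nat.beq (Nat.add x y) (Nat.add z c) || Nat.beq (Nat.add (Nat.add x y) c) z))
  · exact h
  · rw [Bool.and_eq_true, Bool.or_eq_true] at hb
    have h1 : x + 2 * y + 3 * z = m * m := Nat.eq_of_beq_eq_true hb.1
    have h2 : x + y = z + c ∨ x + y + c = z :=
      hb.2.imp (fun h => Nat.eq_of_beq_eq_true h) (fun h => Nat.eq_of_beq_eq_true h)
    show Valid q r (lineCore q r B c M (x * x + y * y + z * z) (min x (min y z)) a)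
    generalize hs : x * x + y * y + z * z = s
    generalize hτ : min x (min y z) = τ
    unfold lineCore
    cases hc : (Nat.beq (Nat.mod s q) r && Nat.ble (Nat.div s q) B)
    · exact h
    · rw [Bool.and_eq_true] at hc
      have hr : s % q = r := Nat.eq_of_beq_eq_true hc.1
      intro k hk
      have hk' : (a ||| (M % 2 ^ (min ((τ + 1) * (3 * (τ + 1) - 2 * c) / q) (B - s / q)))
        <<< (s / q)).testBit k = true := hk
      rw [Nat.testBit_or, Bool.or_eq_true, Nat.testBit_shiftLeft, Nat.testBit_mod_two_pow] at hk'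
      rcases hk' with hk' | hk'
      · exact h k hk'
      · simp only [Bool.and_eq_true, decide_eq_true_eq] at hk'
        obtain ⟨hk1, hk2, hk3⟩ := hk'
        obtain ⟨j, rfl⟩ := Nat.exists_eq_add_of_le hk1
        rw [Nat.add_sub_cancel_left] at hk2 hk3
        obtain ⟨σ, hσ⟩ := hM j hk3
        have hj : j < (τ + 1) * (3 * (τ + 1) - 2 * c) / q := lt_of_lt_of_le hk2 (min_le_left _ _)
        have hj2 : q * j < (τ + 1) * (3 * (τ + 1) - 2 * c) := by
          have hq : 0 < q := by
            rcases Nat.eq_zero_or_pos q with h0 | h0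
            · rw [h0] at hj; simp at hj
            · exact h0
          calc q * j < q * ((τ + 1) * (3 * (τ + 1) - 2 * c) / q) := Nat.mul_lt_mul_of_pos_left hj hq
            _ ≤ _ := Nat.mul_div_le _ _
        have hσle : σ ≤ τ := by
          by_contra hlt
          have hlt' : τ + 1 ≤ σ := by omega
          have h3 : (τ + 1) * (3 * (τ + 1) - 2 * c) ≤ σ * (3 * σ - 2 * c) :=
            Nat.mul_le_mul hlt' (by omega)
          have h4 : σ * (3 * σ - 2 * c) ≤ q * j := by
            rw [Nat.mul_sub]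
            rcases hσ with hσ | hσ
            · have : σ * (3 * σ) ≤ q * j := by nlinarith
              omega
            · have : σ * (3 * σ) = q * j + σ * (2 * c) := by nlinarith
              omega
          omega
        have := line_rep x y z m c σ (q * j) h1 h2 (by omega) (by omega) (by omega) hσ
        convert this using 1
        rw [hs, ← hr, Nat.mul_add]
        have := Nat.div_add_mod s q
        omega

/-- all base points with `x + y = z + c`, then those with `x + y + c = z` -/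
noncomputable def linesM (q r B c M m a : ℕ) : ℕ :=
  loop (fun i a =>
      let R := Nat.sub (Nat.mul m m) (Nat.mul 3 c)
      let y := Nat.add (Nat.mod R 4) (Nat.mul 4 i)
      let x := Nat.div (Nat.sub R (Nat.mul 5 y)) 4
      lineStep q r B c M m x y (Nat.add (Nat.add x y) c) a)
    (Nat.succ (Nat.div (Nat.mul m m) 20)) 0
    (loop (fun i a =>
      let R := Nat.add (Nat.mul m m) (Nat.mul 3 c)
      let y := Nat.add (Nat.mod R 4) (Nat.mul 4 i)
      let x := Nat.div (Nat.sub R (Nat.mul 5 y)) 4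
      lineStep q r B c M m x y (Nat.sub (Nat.add x y) c) a)
    (Nat.succ (Nat.div (Nat.mul m m) 20)) 0 a)

noncomputable def linesP (q r B c M m a : ℕ) : ℕ :=
  loop (fun i a =>
      let R := Nat.add (Nat.mul m m) (Nat.mul 3 c)
      let y := Nat.add (Nat.mod R 4) (Nat.mul 4 i)
      let x := Nat.div (Nat.sub R (Nat.mul 5 y)) 4
      lineStep q r B c M m x y (Nat.sub (Nat.add x y) c) a)
    (Nat.succ (Nat.div (Nat.mul m m) 20)) 0 a

theorem linesM_valid (q r B c M m a : ℕ) (hM : MaskOK q c M) (h : Valid q r a) :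
    Valid q r (linesM q r B c M m a) := by
  refine loop_inv (Valid q r) _ ?_ _ _ _ (loop_inv (Valid q r) _ ?_ _ _ _ h)
  · intro i a ha; exact lineStep_valid _ _ _ _ _ _ _ _ _ _ hM ha
  · intro i a ha; exact lineStep_valid _ _ _ _ _ _ _ _ _ _ hM ha

theorem linesP_valid (q r B c M m a : ℕ) (hM : MaskOK q c M) (h : Valid q r a) :
    Valid q r (linesP q r B c M m a) := by
  refine loop_inv (Valid q r) _ ?_ _ _ _ h
  intro i a ha; exact lineStep_valid _ _ _ _ _ _ _ _ _ _ hM ha

/-- `c₁` is used with both signs, `c₂` with the plus sign; `m = m0 + st * i`. -/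
noncomputable def build (q r B c₁ c₂ f mm m0 st cnt : ℕ) : ℕ :=
  loop (fun i a => linesM q r B c₁ (mask q c₁ f) (Nat.add m0 (Nat.mul st i))
      (linesP q r B c₂ (mask q c₂ f) (Nat.add m0 (Nat.mul st i)) a)) cnt 0 (points q r mm)

theorem build_valid (q r B c₁ c₂ f mm m0 st cnt : ℕ) :
    Valid q r (build q r B c₁ c₂ f mm m0 st cnt) := by
  refine loop_inv (Valid q r) _ ?_ _ _ _ (points_valid q r mm)
  intro i a ha
  exact linesM_valid _ _ _ _ _ _ _ (mask_ok _ _ _) (linesP_valid _ _ _ _ _ _ _ (mask_ok _ _ _) ha)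

noncomputable def stream (G cw w0 f : ℕ) : ℕ → ℕ → Bool :=
  Nat.rec (fun _ _ => true)
    (fun _ ih w acc =>
      (Nat.blt w w0 || Nat.beq (Nat.succ (Nat.mod (Nat.lor acc G)
          (Nat.pow 2 (Nat.mul cw (Nat.succ (Nat.mul 2 w))))))
          (Nat.pow 2 (Nat.mul cw (Nat.succ (Nat.mul 2 w)))))
        && ih (Nat.succ w) (Nat.shiftRight (Nat.lor acc G) (Nat.mul cw (Nat.succ (Nat.mul 2 w))))) f

theorem stream_spec (q r e G cw w0 : ℕ) (he : q * cw = 2 * e ^ 2) (hG : Valid q r G) (f : ℕ) :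
    ∀ w acc, stream G cw w0 f w acc = true →
      (∀ j, acc.testBit j = true → Adm (q * (cw * w ^ 2 + j) + r)) →
      ∀ k, cw * w ^ 2 ≤ k → cw * w0 ^ 2 ≤ k → k < cw * (w + f) ^ 2 → Adm (q * k + r) := by
  induction f with
  | zero => intro w acc _ _ k h1 _ h3; simp at h3; omega
  | succ f ih =>
    intro w acc hs hacc k h1 h2 h3
    have hs' : ((Nat.blt w w0 || Nat.beq ((acc ||| G) % 2 ^ (cw * (2 * w + 1)) + 1)
        (2 ^ (cw * (2 * w + 1)))) && stream G cw w0 f (w + 1) ((acc ||| G) >>> (cw * (2 * w + 1))))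
        = true := hs
    rw [Bool.and_eq_true, Bool.or_eq_true] at hs'
    have hor : ∀ j, (acc ||| G).testBit j = true → Adm (q * (cw * w ^ 2 + j) + r) := by
      intro j hj
      rw [Nat.testBit_or, Bool.or_eq_true] at hj
      rcases hj with hj | hj
      · exact hacc j hj
      · obtain ⟨x, y, z, m, h, h'⟩ := hG j hj
        refine ⟨x, y, z, e * w, m, ?_, h'⟩
        rw [← h, mul_pow, ← mul_assoc, ← he]; ring
    have hsq : cw * (w + 1) ^ 2 = cw * w ^ 2 + cw * (2 * w + 1) := by ring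
    by_cases hk : cw * (w + 1) ^ 2 ≤ k
    · refine ih (w + 1) _ hs'.2 ?_ k hk h2 (by rwa [add_assoc, add_comm 1 f])
      intro j hj
      rw [Nat.testBit_shiftRight] at hj
      have := hor _ hj
      rwa [hsq, add_assoc]
    · rcases hs'.1 with h | h
      · exfalso
        have hw : w < w0 := by simpa [Nat.blt_eq] using h
        have : cw * (w + 1) ^ 2 ≤ cw * w0 ^ 2 :=
          Nat.mul_le_mul_left _ (Nat.pow_le_pow_left hw 2)
        omega
      · have h' : (acc ||| G) % 2 ^ (cw * (2 * w + 1)) + 1 = 2 ^ (cw * (2 * w + 1)) :=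
          Nat.eq_of_beq_eq_true h
        have h'' : (acc ||| G) % 2 ^ (cw * (2 * w + 1)) = 2 ^ (cw * (2 * w + 1)) - 1 := by omega
        obtain ⟨j, rfl⟩ := Nat.exists_eq_add_of_le h1
        have hj : j < cw * (2 * w + 1) := by omega
        apply hor
        have := congrArg (fun t => Nat.testBit t j) h''
        simp only [Nat.testBit_mod_two_pow, Nat.testBit_two_pow_sub_one, hj, decide_true,
          Bool.true_and] at this
        exact this

theorem stream_range (q r e G cw w0 w1 f : ℕ) (he : q * cw = 2 * e ^ 2) (hG : Valid q r G)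
    (hw : w1 ≤ w0) (h : stream G cw w0 f w1 0 = true) (k : ℕ) (h1 : cw * w0 ^ 2 ≤ k)
    (h2 : k < cw * (w1 + f) ^ 2) : Adm (q * k + r) :=
  stream_spec q r e G cw w0 he hG f w1 0 h (by intro j hj; simp at hj) k
    (le_trans (Nat.mul_le_mul_left _ (Nat.pow_le_pow_left hw 2)) h1) h1 h2

theorem Valid.mod {q r G : ℕ} (h : Valid q r G) (d : ℕ) : Valid q r (Nat.mod G (Nat.pow 2 d)) := by
  intro k hk
  have hk' : (G % 2 ^ d).testBit k = true := hk
  rw [Nat.testBit_mod_two_pow, Bool.and_eq_true] at hk'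
  exact h k hk'.2

end Pool.Agent.Lib.MP_b1de50_nt
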