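import Pool.Agent.Lib.MP_b1de50_nt.Check

namespace Pool.Agent.Lib.MP_b1de50_nt

theorem checkA : stream (build 1 0 800000 1 0 520 12 0 1 58) 2 0 9100 0 0 = true := by
  decide +kernel

theorem admA (n : ℕ) (h : n < 2 * 9100 ^ 2) : Adm n := by
  have := stream_range 1 0 1 _ 2 0 0 9100 (by norm_num) (build_valid 1 0 800000 1 0 520 12 0 1 58)
    le_rfl checkA n (by simp) (by simpa using h)
  simpa using this

end Pool.Agent.Lib.MP_b1de50_nt
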