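import Pool.Agent.Lib.MP_b1de50_nt.Check

namespace Pool.Agent.Lib.MP_b1de50_nt

theorem checkB : stream (build 8 1 300000 1 3 900 14 1 2 38) 1 0 10200 0 0 = true := by
  decide +kernel

theorem admB (n : ℕ) (hn : n % 8 = 1) (h : n < 8 * 10200 ^ 2) : Adm n := by
  obtain ⟨k, rfl⟩ : ∃ k, n = 8 * k + 1 := ⟨n / 8, by omega⟩
  exact stream_range 8 1 2 _ 1 0 0 10200 (by norm_num)
    (build_valid 8 1 300000 1 3 900 14 1 2 38) le_rfl checkB k (by omega) (by omega)

end Pool.Agent.Lib.MP_b1de50_nt
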