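import Pool.Agent.Lib.MP_b1de50_nt.Check

namespace Pool.Agent.Lib.MP_b1de50_nt

noncomputable def streams (G : ℕ) : Bool :=
  stream G 1 12080 406 12046 0
    && stream G 1 15144 382 15117 0
    && stream G 1 18555 348 18533 0
    && stream G 1 22311 302 22293 0
    && stream G 1 26413 246 26397 0
    && stream G 1 30860 178 30847 0
    && stream G 1 35654 97 35642 0

theorem checkC : streams (build 8 1 800000 1 3 1465 1 1 2 49) = true := by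
  decide +kernel

theorem admC_of (G : ℕ) (hG : Valid 8 1 G) (hc : streams G = true) (n : ℕ) (hn : n % 8 = 1)
    (h : (8 * 12080 ^ 2 ≤ n ∧ n < 8 * 12452 ^ 2)
    ∨ (8 * 15144 ^ 2 ≤ n ∧ n < 8 * 15499 ^ 2)
    ∨ (8 * 18555 ^ 2 ≤ n ∧ n < 8 * 18881 ^ 2)
    ∨ (8 * 22311 ^ 2 ≤ n ∧ n < 8 * 22595 ^ 2)
    ∨ (8 * 26413 ^ 2 ≤ n ∧ n < 8 * 26643 ^ 2)
    ∨ (8 * 30860 ^ 2 ≤ n ∧ n < 8 * 31025 ^ 2)
    ∨ (8 * 35654 ^ 2 ≤ n ∧ n < 8 * 35739 ^ 2)) : Adm n := by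
  unfold streams at hc
  simp only [Bool.and_eq_true] at hc
  obtain ⟨⟨⟨⟨⟨⟨h0, h1⟩, h2⟩, h3⟩, h4⟩, h5⟩, h6⟩ := hc
  obtain ⟨k, rfl⟩ : ∃ k, n = 8 * k + 1 := ⟨n / 8, by omega⟩
  rcases h with h | h | h | h | h | h | h
  · have a1 : 1 * 12080 ^ 2 ≤ k := by omega
    have a2 : k < 1 * (12046 + 406) ^ 2 := by omega
    exact stream_range 8 1 2 G 1 12080 12046 406 (by norm_num) hG (by norm_num) h0 k a1 a2
  · have a1 : 1 * 15144 ^ 2 ≤ k := by omega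
    have a2 : k < 1 * (15117 + 382) ^ 2 := by omega
    exact stream_range 8 1 2 G 1 15144 15117 382 (by norm_num) hG (by norm_num) h1 k a1 a2
  · have a1 : 1 * 18555 ^ 2 ≤ k := by omega
    have a2 : k < 1 * (18533 + 348) ^ 2 := by omega
    exact stream_range 8 1 2 G 1 18555 18533 348 (by norm_num) hG (by norm_num) h2 k a1 a2
  · have a1 : 1 * 22311 ^ 2 ≤ k := by omega
    have a2 : k < 1 * (22293 + 302) ^ 2 := by omega
    exact stream_range 8 1 2 G 1 22311 22293 302 (by norm_num) hG (by norm_num) h3 k a1 a2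
  · have a1 : 1 * 26413 ^ 2 ≤ k := by omega
    have a2 : k < 1 * (26397 + 246) ^ 2 := by omega
    exact stream_range 8 1 2 G 1 26413 26397 246 (by norm_num) hG (by norm_num) h4 k a1 a2
  · have a1 : 1 * 30860 ^ 2 ≤ k := by omega
    have a2 : k < 1 * (30847 + 178) ^ 2 := by omega
    exact stream_range 8 1 2 G 1 30860 30847 178 (by norm_num) hG (by norm_num) h5 k a1 a2
  · have a1 : 1 * 35654 ^ 2 ≤ k := by omega
    have a2 : k < 1 * (35642 + 97) ^ 2 := by omega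
    exact stream_range 8 1 2 G 1 35654 35642 97 (by norm_num) hG (by norm_num) h6 k a1 a2

theorem admC (n : ℕ) (hn : n % 8 = 1)
    (h : (8 * 12080 ^ 2 ≤ n ∧ n < 8 * 12452 ^ 2)
    ∨ (8 * 15144 ^ 2 ≤ n ∧ n < 8 * 15499 ^ 2)
    ∨ (8 * 18555 ^ 2 ≤ n ∧ n < 8 * 18881 ^ 2)
    ∨ (8 * 22311 ^ 2 ≤ n ∧ n < 8 * 22595 ^ 2)
    ∨ (8 * 26413 ^ 2 ≤ n ∧ n < 8 * 26643 ^ 2)
    ∨ (8 * 30860 ^ 2 ≤ n ∧ n < 8 * 31025 ^ 2)
    ∨ (8 * 35654 ^ 2 ≤ n ∧ n < 8 * 35739 ^ 2)) : Adm n :=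
  admC_of _ (build_valid 8 1 800000 1 3 1465 1 1 2 49) checkC n hn h

end Pool.Agent.Lib.MP_b1de50_nt
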