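import Pool.Agent.Lib.MP_b1de50_nt.ThreeSquares
import Pool.Agent.Lib.MP_b1de50_nt.Check
import Mathlib.Tactic.NormNum.Prime
import Mathlib.Tactic.IntervalCases

namespace Pool.Agent.Lib.MP_b1de50_nt

theorem adm_of_int (n m : ℕ) (x y z w : ℤ) (h : x ^ 2 + y ^ 2 + z ^ 2 + 2 * w ^ 2 = n)
    (hs : x + 2 * y + 3 * z = (m : ℤ) ^ 2) (hlo : 13 * n ≤ m ^ 4) : Adm n := by
  have hlo' : 13 * (n : ℤ) ≤ ((m : ℤ) ^ 2) ^ 2 := by
    have : ((13 * n : ℕ) : ℤ) ≤ ((m ^ 4 : ℕ) : ℤ) := by exact_mod_cast hlo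
    push_cast at this; linarith [show ((m : ℤ) ^ 2) ^ 2 = m ^ 4 by ring]
  have hs0 : (0 : ℤ) ≤ (m : ℤ) ^ 2 := by positivity
  generalize hsd : (m : ℤ) ^ 2 = s at hs hlo' hs0
  have hx : 0 ≤ x := by
    by_contra hneg
    have h1 : s < 2 * y + 3 * z := by omega
    have h2 : s ^ 2 < (2 * y + 3 * z) ^ 2 := by nlinarith
    nlinarith [sq_nonneg (3 * y - 2 * z), sq_nonneg x, sq_nonneg w]
  have hy : 0 ≤ y := by
    by_contra hneg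
    have h1 : s < x + 3 * z := by omega
    have h2 : s ^ 2 < (x + 3 * z) ^ 2 := by nlinarith
    nlinarith [sq_nonneg (3 * x - z), sq_nonneg x, sq_nonneg y, sq_nonneg z, sq_nonneg w]
  have hz : 0 ≤ z := by
    by_contra hneg
    have h1 : s < x + 2 * y := by omega
    have h2 : s ^ 2 < (x + 2 * y) ^ 2 := by nlinarith
    nlinarith [sq_nonneg (2 * x - y), sq_nonneg x, sq_nonneg y, sq_nonneg z, sq_nonneg w]
  obtain ⟨x, rfl⟩ := Int.eq_ofNat_of_zero_le hx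
  obtain ⟨y, rfl⟩ := Int.eq_ofNat_of_zero_le hy
  obtain ⟨z, rfl⟩ := Int.eq_ofNat_of_zero_le hz
  refine ⟨x, y, z, w.natAbs, m, ?_, ?_⟩
  · zify; rw [sq_abs]; linarith
  · zify; rw [hsd]; linarith

theorem finish_core (n m : ℕ) (X Y Z : ℤ)
    (h : X ^ 2 + Y ^ 2 + Z ^ 2 + 2 * ((m : ℤ) ^ 2) ^ 2 = 28 * n)
    (h7 : (X + 2 * Y + 3 * Z) % 7 = 0) (h7' : (Z - 3 * X - (m : ℤ) ^ 2) % 7 = 0)
    (hY : Y % 2 = 0) (hXZ : (X - Z) % 4 = 0) (hX : (X - (m : ℤ) ^ 2) % 2 = 0)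
    (hlo : 13 * n ≤ m ^ 4) : Adm n := by
  obtain ⟨s, hs⟩ : ∃ s : ℤ, s = (m : ℤ) ^ 2 := ⟨_, rfl⟩
  rw [← hs] at h h7' hX
  obtain ⟨x, hx⟩ : ∃ x, 28 * x = X + 4 * Y - 3 * Z + 2 * s :=
    ⟨(X + 4 * Y - 3 * Z + 2 * s) / 28, by omega⟩
  obtain ⟨y, hy⟩ : ∃ y, 14 * y = 2 * X - Y + 2 * s := ⟨(2 * X - Y + 2 * s) / 14, by omega⟩
  obtain ⟨z, hz⟩ : ∃ z, 28 * z = -3 * X + Z + 6 * s := ⟨(-3 * X + Z + 6 * s) / 28, by omega⟩
  obtain ⟨w, hw⟩ : ∃ w, 28 * w = X + 2 * Y + 3 * Z := ⟨(X + 2 * Y + 3 * Z) / 28, by omega⟩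
  have e0 : s = x + 2 * y + 3 * z := by omega
  have e1 : X = x + 4 * y - 3 * z + 2 * w := by omega
  have e2 : Y = 4 * x - 2 * y + 4 * w := by omega
  have e3 : Z = -3 * x + z + 6 * w := by omega
  refine adm_of_int n m x y z w ?_ (by rw [← hs, e0]) hlo
  rw [e0, e1, e2, e3] at h
  linarith [h, show (x + 4 * y - 3 * z + 2 * w) ^ 2 + (4 * x - 2 * y + 4 * w) ^ 2
    + (-3 * x + z + 6 * w) ^ 2 + 2 * (x + 2 * y + 3 * z) ^ 2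
    = 28 * (x ^ 2 + y ^ 2 + z ^ 2 + 2 * w ^ 2) by ring]

theorem finish (n m : ℕ) (X Y Z : ℤ)
    (h : X ^ 2 + Y ^ 2 + Z ^ 2 + 2 * ((m : ℤ) ^ 2) ^ 2 = 28 * n)
    (h7 : (X + 2 * Y + 3 * Z) % 7 = 0)
    (hY : Y % 2 = 0) (hXZ : (X - Z) % 4 = 0) (hX : (X - (m : ℤ) ^ 2) % 2 = 0)
    (hlo : 13 * n ≤ m ^ 4) : Adm n := by
  have key : (7 : ℤ) ∣ (Z - 3 * X - (m : ℤ) ^ 2) * (Z - 3 * X + (m : ℤ) ^ 2) := by
    generalize (m : ℤ) ^ 2 = s at h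
    obtain ⟨a, ha⟩ : ∃ a, Y = 2 * X + 2 * (Z - 3 * X) + 7 * a :=
      ⟨(Y - 2 * X - 2 * (Z - 3 * X)) / 7, by omega⟩
    obtain ⟨μ, hμ⟩ : ∃ μ, Z = 3 * X + μ := ⟨Z - 3 * X, by ring⟩
    subst hμ
    subst ha
    exact ⟨-2 * μ ^ 2 - s ^ 2 + 12 * n - 6 * X ^ 2 - 6 * X * μ - 12 * X * a - 12 * μ * a
      - 21 * a ^ 2, by linear_combination 3 * h⟩
  rcases (Int.prime_iff_natAbs_prime.2 (by norm_num) : Prime (7 : ℤ)).dvd_or_dvd key with k | k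
  · exact finish_core n m X Y Z h h7 (by omega) hY hXZ hX hlo
  · exact finish_core n m (-X) (-Y) (-Z) (by linear_combination h) (by omega) (by omega)
      (by omega) (by omega) (by omega) hlo

theorem descent (S : ℤ → ℤ → ℤ → Prop) (α β : ℤ → ℤ → ℤ → ℤ) (c : ℤ) (hc : IsCoprime (7 : ℤ) c)
    (h1 : ∀ X Y Z, S X Y Z → ∃ a X' Y' Z', α X Y Z = 7 * a ∧ S X' Y' Z' ∧
      β X' Y' Z' = β X Y Z - c * a)
    (h2 : ∀ X Y Z, S X Y Z → ∃ a X' Y' Z', β X Y Z = 7 * a ∧ S X' Y' Z' ∧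
      α X' Y' Z' = α X Y Z - c * a) (X Y Z : ℤ) (h : S X Y Z) : α X Y Z = 0 ∧ β X Y Z = 0 := by
  have key : ∀ j : ℕ, ∀ X Y Z, S X Y Z → (7 : ℤ) ^ j ∣ α X Y Z ∧ (7 : ℤ) ^ j ∣ β X Y Z := by
    intro j
    induction j with
    | zero => intro X Y Z _; simp
    | succ j ih =>
      intro X Y Z h
      have hcj : IsCoprime ((7 : ℤ) ^ j) c := IsCoprime.pow_left hc
      constructor
      · obtain ⟨a, X', Y', Z', e1, e2, e3⟩ := h1 X Y Z h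
        have d1 := (ih X' Y' Z' e2).2
        have d2 := (ih X Y Z h).2
        have d3 : (7 : ℤ) ^ j ∣ c * a := by
          have := dvd_sub d2 d1
          rwa [e3, sub_sub_cancel] at this
        rw [e1, pow_succ']
        exact mul_dvd_mul_left _ (hcj.dvd_of_dvd_mul_left d3)
      · obtain ⟨a, X', Y', Z', e1, e2, e3⟩ := h2 X Y Z h
        have d1 := (ih X' Y' Z' e2).1
        have d2 := (ih X Y Z h).1
        have d3 : (7 : ℤ) ^ j ∣ c * a := by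
          have := dvd_sub d2 d1
          rwa [e3, sub_sub_cancel] at this
        rw [e1, pow_succ']
        exact mul_dvd_mul_left _ (hcj.dvd_of_dvd_mul_left d3)
  have fin : ∀ u : ℤ, (∀ j : ℕ, (7 : ℤ) ^ j ∣ u) → u = 0 := by
    intro u hu
    refine Int.eq_zero_of_abs_lt_dvd (hu u.natAbs) ?_
    rw [← Int.natCast_natAbs]
    exact_mod_cast Nat.lt_pow_self (by norm_num : 1 < 7)
  exact ⟨fin _ (fun j => (key j X Y Z h).1), fin _ (fun j => (key j X Y Z h).2)⟩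

theorem zmod_plus : ∀ x y z k : ZMod 7, x + y + z = 3 * k →
    (x ^ 2 + y ^ 2 + z ^ 2 = 3 ∨ x ^ 2 + y ^ 2 + z ^ 2 = 5 ∨ x ^ 2 + y ^ 2 + z ^ 2 = 6) →
    x + 2 * y + 3 * z ≠ 0 → x + 2 * -y + 3 * z ≠ 0 → z + 2 * y + 3 * x ≠ 0 →
    z + 2 * -y + 3 * x ≠ 0 →
    (x - 2 * k) + 2 * -(y - 2 * k) + 3 * (z - 2 * k) ≠ 0 →
    (z - 2 * k) + 2 * -(y - 2 * k) + 3 * (x - 2 * k) ≠ 0 →
    x + 2 * y - 3 * z = 0 ∧ 3 * x - 2 * y - z = 0 := by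
  decide +kernel

theorem zmod_minus : ∀ x y z k : ZMod 7, x + y - z = 3 * k →
    (x ^ 2 + y ^ 2 + z ^ 2 = 3 ∨ x ^ 2 + y ^ 2 + z ^ 2 = 5 ∨ x ^ 2 + y ^ 2 + z ^ 2 = 6) →
    x + 2 * y + 3 * z ≠ 0 → x + 2 * -y + 3 * z ≠ 0 → z + 2 * y + 3 * x ≠ 0 →
    z + 2 * -y + 3 * x ≠ 0 →
    (x - 2 * k) + 2 * -(y - 2 * k) + 3 * (z + 2 * k) ≠ 0 →
    (z + 2 * k) + 2 * (y - 2 * k) + 3 * (x - 2 * k) ≠ 0 →
    x + 2 * y - 3 * z = 0 ∧ 3 * x + 2 * y - z = 0 := by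
  decide +kernel

theorem zmod_even : ∀ x y z : ZMod 7,
    (x ^ 2 + y ^ 2 + z ^ 2 = 0 ∨ x ^ 2 + y ^ 2 + z ^ 2 = 3 ∨ x ^ 2 + y ^ 2 + z ^ 2 = 5
      ∨ x ^ 2 + y ^ 2 + z ^ 2 = 6) →
    x + 2 * y + 3 * z = 0 ∨ -x + 2 * y + 3 * z = 0 ∨ x + 2 * y + 3 * -z = 0
      ∨ -x + 2 * y + 3 * -z = 0 ∨ z + 2 * y + 3 * x = 0 ∨ -z + 2 * y + 3 * x = 0
      ∨ z + 2 * y + 3 * -x = 0 ∨ -z + 2 * y + 3 * -x = 0 := by
  decide +kernel

theorem zmod_three : ∀ x y z : ZMod 3, x ^ 2 + y ^ 2 + z ^ 2 ≠ 1 →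
    x + y + z = 0 ∨ x + -y + z = 0 ∨ x + y - z = 0 ∨ x + -y - z = 0 := by
  decide +kernel

theorem cast7 (u : ℤ) : (u : ZMod 7) = 0 ↔ u % 7 = 0 := by
  rw [ZMod.intCast_zmod_eq_zero_iff_dvd]; push_cast; omega

theorem cast3 (u : ℤ) : (u : ZMod 3) = 0 ↔ u % 3 = 0 := by
  rw [ZMod.intCast_zmod_eq_zero_iff_dvd]; push_cast; omega

theorem cast7' (u : ℤ) (r : ℕ) (h : u % 7 = r) : (u : ZMod 7) = r := by
  have := (cast7 (u - r)).2 (by omega)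
  push_cast at this
  exact sub_eq_zero.1 this

def Nrm (T X Y Z : ℤ) : Prop :=
  X ^ 2 + Y ^ 2 + Z ^ 2 = T ∧ X % 2 = 1 ∧ Y % 2 = 0 ∧ (X - Z) % 4 = 0

section
variable {T : ℤ} (hT : T % 7 = 3 ∨ T % 7 = 5 ∨ T % 7 = 6)
  (hno : ∀ X Y Z, Nrm T X Y Z → (X + 2 * Y + 3 * Z) % 7 ≠ 0)
include hT hno

omit hT in
theorem four_ne {X Y Z : ℤ} (h : Nrm T X Y Z) :
    (X : ZMod 7) + 2 * Y + 3 * Z ≠ 0 ∧ (X : ZMod 7) + 2 * -Y + 3 * Z ≠ 0 ∧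
      (Z : ZMod 7) + 2 * Y + 3 * X ≠ 0 ∧ (Z : ZMod 7) + 2 * -Y + 3 * X ≠ 0 := by
  obtain ⟨h1, h2, h3, h4⟩ := h
  have a1 := hno X Y Z ⟨h1, h2, h3, h4⟩
  have a2 := hno X (-Y) Z ⟨by linear_combination h1, h2, by omega, h4⟩
  have a3 := hno Z Y X ⟨by linear_combination h1, by omega, h3, by omega⟩
  have a4 := hno Z (-Y) X ⟨by linear_combination h1, by omega, by omega, by omega⟩
  rw [Ne, ← cast7] at a1 a2 a3 a4
  push_cast at a1 a2 a3 a4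
  exact ⟨a1, a2, a3, a4⟩

omit hno in
theorem norm7 {X Y Z : ℤ} (h : Nrm T X Y Z) :
    (X : ZMod 7) ^ 2 + Y ^ 2 + Z ^ 2 = 3 ∨ (X : ZMod 7) ^ 2 + Y ^ 2 + Z ^ 2 = 5
      ∨ (X : ZMod 7) ^ 2 + Y ^ 2 + Z ^ 2 = 6 := by
  have e : (X : ZMod 7) ^ 2 + Y ^ 2 + Z ^ 2 = T := by rw [← h.1]; push_cast; rfl
  rw [e]
  rcases hT with h | h | h
  · exact Or.inl (cast7' T 3 h)
  · exact Or.inr (Or.inl (cast7' T 5 h))
  · exact Or.inr (Or.inr (cast7' T 6 h))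

theorem step_plus {X Y Z : ℤ} (h : Nrm T X Y Z) (h3 : (X + Y + Z) % 3 = 0) :
    (X + 2 * Y - 3 * Z) % 7 = 0 ∧ (3 * X - 2 * Y - Z) % 7 = 0 := by
  obtain ⟨k, hk⟩ : ∃ k, X + Y + Z = 3 * k := ⟨(X + Y + Z) / 3, by omega⟩
  have h' : Nrm T (X - 2 * k) (Y - 2 * k) (Z - 2 * k) := by
    obtain ⟨h1, h2, h3, h4⟩ := h
    exact ⟨by linear_combination h1 - 4 * k * hk, by omega, by omega, by omega⟩
  obtain ⟨a1, a2, a3, a4⟩ := four_ne hno h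
  obtain ⟨-, b2, -, b4⟩ := four_ne hno h'
  push_cast at b2 b4
  have hk' : (X : ZMod 7) + Y + Z = 3 * k := by exact_mod_cast congrArg (Int.cast : ℤ → ZMod 7) hk
  have := zmod_plus X Y Z k hk' (norm7 hT h) a1 a2 a3 a4 b2 b4
  rw [← cast7, ← cast7]
  push_cast
  exact this

theorem step_minus {X Y Z : ℤ} (h : Nrm T X Y Z) (h3 : (X + Y - Z) % 3 = 0) :
    (X + 2 * Y - 3 * Z) % 7 = 0 ∧ (3 * X + 2 * Y - Z) % 7 = 0 := by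
  obtain ⟨k, hk⟩ : ∃ k, X + Y - Z = 3 * k := ⟨(X + Y - Z) / 3, by omega⟩
  have h' : Nrm T (X - 2 * k) (Y - 2 * k) (Z + 2 * k) := by
    obtain ⟨h1, h2, h3, h4⟩ := h
    exact ⟨by linear_combination h1 - 4 * k * hk, by omega, by omega, by omega⟩
  obtain ⟨a1, a2, a3, a4⟩ := four_ne hno h
  obtain ⟨-, b2, b3, -⟩ := four_ne hno h'
  push_cast at b2 b3
  have hk' : (X : ZMod 7) + Y - Z = 3 * k := by exact_mod_cast congrArg (Int.cast : ℤ → ZMod 7) hk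
  have := zmod_minus X Y Z k hk' (norm7 hT h) a1 a2 a3 a4 b2 b3
  rw [← cast7, ← cast7]
  push_cast
  exact this

theorem empty_plus {X Y Z : ℤ} (h : Nrm T X Y Z) (h3 : (X + Y + Z) % 3 = 0) : False := by
  have := descent (fun X Y Z => Nrm T X Y Z ∧ (X + Y + Z) % 3 = 0)
    (fun X Y Z => X + 2 * Y - 3 * Z) (fun X Y Z => 3 * X - 2 * Y - Z) 2 ⟨1, -3, by norm_num⟩
    (by
      rintro X Y Z ⟨h, h3⟩
      have := (step_plus hT hno h h3).1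
      obtain ⟨a, ha⟩ : ∃ a, X + 2 * Y - 3 * Z = 7 * a := ⟨(X + 2 * Y - 3 * Z) / 7, by omega⟩
      obtain ⟨h1, h2, h3, h4⟩ := h
      exact ⟨a, X - a, Y - 2 * a, Z + 3 * a, ha,
        ⟨⟨by linear_combination h1 - 2 * a * ha, by omega, by omega, by omega⟩, by omega⟩,
        by ring⟩)
    (by
      rintro X Y Z ⟨h, h3⟩
      have := (step_plus hT hno h h3).2
      obtain ⟨a, ha⟩ : ∃ a, 3 * X - 2 * Y - Z = 7 * a := ⟨(3 * X - 2 * Y - Z) / 7, by omega⟩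
      obtain ⟨h1, h2, h3, h4⟩ := h
      exact ⟨a, X - 3 * a, Y + 2 * a, Z + a, ha,
        ⟨⟨by linear_combination h1 - 2 * a * ha, by omega, by omega, by omega⟩, by omega⟩,
        by ring⟩) X Y Z ⟨h, h3⟩
  obtain ⟨h1, h2, h3, h4⟩ := h
  omega

theorem empty_minus {X Y Z : ℤ} (h : Nrm T X Y Z) (h3 : (X + Y - Z) % 3 = 0) : False := by
  have := descent (fun X Y Z => Nrm T X Y Z ∧ (X + Y - Z) % 3 = 0)
    (fun X Y Z => X + 2 * Y - 3 * Z) (fun X Y Z => 3 * X + 2 * Y - Z) 10 ⟨3, -2, by norm_num⟩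
    (by
      rintro X Y Z ⟨h, h3⟩
      have := (step_minus hT hno h h3).1
      obtain ⟨a, ha⟩ : ∃ a, X + 2 * Y - 3 * Z = 7 * a := ⟨(X + 2 * Y - 3 * Z) / 7, by omega⟩
      obtain ⟨h1, h2, h3, h4⟩ := h
      exact ⟨a, X - a, Y - 2 * a, Z + 3 * a, ha,
        ⟨⟨by linear_combination h1 - 2 * a * ha, by omega, by omega, by omega⟩, by omega⟩,
        by ring⟩)
    (by
      rintro X Y Z ⟨h, h3⟩
      have := (step_minus hT hno h h3).2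
      obtain ⟨a, ha⟩ : ∃ a, 3 * X + 2 * Y - Z = 7 * a := ⟨(3 * X + 2 * Y - Z) / 7, by omega⟩
      obtain ⟨h1, h2, h3, h4⟩ := h
      exact ⟨a, X - 3 * a, Y - 2 * a, Z + a, ha,
        ⟨⟨by linear_combination h1 - 2 * a * ha, by omega, by omega, by omega⟩, by omega⟩,
        by ring⟩) X Y Z ⟨h, h3⟩
  obtain ⟨h1, h2, h3, h4⟩ := h
  omega

end

theorem sq_mod_four (u : ℤ) : (u % 2 = 0 ∧ u ^ 2 % 4 = 0) ∨ (u % 2 = 1 ∧ u ^ 2 % 4 = 1) := by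
  rcases Int.even_or_odd' u with ⟨k, rfl | rfl⟩
  · left
    have : (2 * k) ^ 2 = 4 * k ^ 2 := by ring
    omega
  · right
    have : (2 * k + 1) ^ 2 = 4 * (k ^ 2 + k) + 1 := by ring
    omega

theorem exists_nrm (T X Y Z : ℤ) (h : X ^ 2 + Y ^ 2 + Z ^ 2 = T) (h4 : T % 4 = 2) :
    ∃ X Y Z, Nrm T X Y Z := by
  have key : ∀ X Y Z : ℤ, X ^ 2 + Y ^ 2 + Z ^ 2 = T → X % 2 = 1 → Y % 2 = 0 → Z % 2 = 1 →
      ∃ X Y Z, Nrm T X Y Z := by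
    intro X Y Z h a b c
    by_cases hh : (X - Z) % 4 = 0
    · exact ⟨X, Y, Z, h, a, b, hh⟩
    · exact ⟨X, Y, -Z, by linear_combination h, a, b, by omega⟩
  have hx := sq_mod_four X
  have hy := sq_mod_four Y
  have hz := sq_mod_four Z
  have : (X % 2 = 1 ∧ Y % 2 = 0 ∧ Z % 2 = 1) ∨ (Y % 2 = 1 ∧ X % 2 = 0 ∧ Z % 2 = 1) ∨
      (X % 2 = 1 ∧ Z % 2 = 0 ∧ Y % 2 = 1) := by omega
  rcases this with ⟨a, b, c⟩ | ⟨a, b, c⟩ | ⟨a, b, c⟩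
  · exact key X Y Z h a b c
  · exact key Y X Z (by linear_combination h) a b c
  · exact key X Z Y (by linear_combination h) a b c

theorem good_odd (T : ℕ) (h4 : T % 4 = 2) (h7 : T % 7 = 3 ∨ T % 7 = 5 ∨ T % 7 = 6)
    (h3 : T % 3 ≠ 1) : ∃ X Y Z : ℤ, Nrm T X Y Z ∧ (X + 2 * Y + 3 * Z) % 7 = 0 := by
  by_contra hcon
  have hno : ∀ X Y Z, Nrm T X Y Z → (X + 2 * Y + 3 * Z) % 7 ≠ 0 :=
    fun X Y Z h h' => hcon ⟨X, Y, Z, h, h'⟩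
  have hT : (T : ℤ) % 7 = 3 ∨ (T : ℤ) % 7 = 5 ∨ (T : ℤ) % 7 = 6 := by omega
  obtain ⟨X0, Y0, Z0, h0⟩ := three_squares T (Or.inr (Or.inl h4))
  obtain ⟨X, Y, Z, h⟩ := exists_nrm T X0 Y0 Z0 h0 (by omega)
  have h' : Nrm T X (-Y) Z := by
    obtain ⟨h1, h2, h3, h4⟩ := h
    exact ⟨by linear_combination h1, h2, by omega, h4⟩
  have hne : (X : ZMod 3) ^ 2 + Y ^ 2 + Z ^ 2 ≠ 1 := by
    intro hh
    have e : (((T : ℤ) - 1 : ℤ) : ZMod 3) = 0 := by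
      rw [← h.1]; push_cast; rw [hh]; ring
    rw [cast3] at e
    omega
  rcases zmod_three X Y Z hne with e | e | e | e
  · exact empty_plus hT hno h ((cast3 _).1 (by push_cast; exact e))
  · exact empty_plus hT hno h' ((cast3 _).1 (by push_cast; exact e))
  · exact empty_minus hT hno h ((cast3 _).1 (by push_cast; exact e))
  · exact empty_minus hT hno h' ((cast3 _).1 (by push_cast; exact e))

theorem good_even (T X Y Z : ℤ) (h : X ^ 2 + Y ^ 2 + Z ^ 2 = T)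
    (h7 : T % 7 = 0 ∨ T % 7 = 3 ∨ T % 7 = 5 ∨ T % 7 = 6) :
    ∃ X Y Z : ℤ, X ^ 2 + Y ^ 2 + Z ^ 2 = T ∧ (X - Z) % 2 = 0 ∧ (X + 2 * Y + 3 * Z) % 7 = 0 := by
  have key : ∀ X Y Z : ℤ, X ^ 2 + Y ^ 2 + Z ^ 2 = T → (X - Z) % 2 = 0 →
      ∃ X Y Z : ℤ, X ^ 2 + Y ^ 2 + Z ^ 2 = T ∧ (X - Z) % 2 = 0 ∧ (X + 2 * Y + 3 * Z) % 7 = 0 := by
    intro X Y Z h hp
    have e : (X : ZMod 7) ^ 2 + Y ^ 2 + Z ^ 2 = T := by rw [← h]; push_cast; rfl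
    have hn : (X : ZMod 7) ^ 2 + Y ^ 2 + Z ^ 2 = 0 ∨ (X : ZMod 7) ^ 2 + Y ^ 2 + Z ^ 2 = 3
        ∨ (X : ZMod 7) ^ 2 + Y ^ 2 + Z ^ 2 = 5 ∨ (X : ZMod 7) ^ 2 + Y ^ 2 + Z ^ 2 = 6 := by
      rw [e]
      rcases h7 with h | h | h | h
      · exact Or.inl ((cast7 T).2 h)
      · exact Or.inr (Or.inl (cast7' T 3 h))
      · exact Or.inr (Or.inr (Or.inl (cast7' T 5 h)))
      · exact Or.inr (Or.inr (Or.inr (cast7' T 6 h)))
    rcases zmod_even X Y Z hn with e | e | e | e | e | e | e | e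
    · exact ⟨X, Y, Z, h, hp, (cast7 _).1 (by push_cast; exact e)⟩
    · exact ⟨-X, Y, Z, by linear_combination h, by omega, (cast7 _).1 (by push_cast; exact e)⟩
    · exact ⟨X, Y, -Z, by linear_combination h, by omega, (cast7 _).1 (by push_cast; exact e)⟩
    · exact ⟨-X, Y, -Z, by linear_combination h, by omega, (cast7 _).1 (by push_cast; exact e)⟩
    · exact ⟨Z, Y, X, by linear_combination h, by omega, (cast7 _).1 (by push_cast; exact e)⟩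
    · exact ⟨-Z, Y, X, by linear_combination h, by omega, (cast7 _).1 (by push_cast; exact e)⟩
    · exact ⟨Z, Y, -X, by linear_combination h, by omega, (cast7 _).1 (by push_cast; exact e)⟩
    · exact ⟨-Z, Y, -X, by linear_combination h, by omega, (cast7 _).1 (by push_cast; exact e)⟩
  have : (X - Z) % 2 = 0 ∨ (Y - Z) % 2 = 0 ∨ (X - Y) % 2 = 0 := by omega
  rcases this with a | a | a
  · exact key X Y Z h a
  · exact key Y X Z (by linear_combination h) a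
  · exact key X Z Y (by linear_combination h) a

end Pool.Agent.Lib.MP_b1de50_nt
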