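import Pool.Agent.Lib.MP_b1de50_nt.Lattice
import Pool.Agent.Lib.MP_b1de50_nt.CheckA
import Pool.Agent.Lib.MP_b1de50_nt.CheckB
import Pool.Agent.Lib.MP_b1de50_nt.CheckC

namespace Pool.Agent.Lib.MP_b1de50_nt

theorem pow4_mod7 (m : ℕ) : (m % 7 = 0 ∧ m ^ 4 % 7 = 0) ∨
    (m % 7 ≠ 0 ∧ (m ^ 4 % 7 = 1 ∨ m ^ 4 % 7 = 2 ∨ m ^ 4 % 7 = 4)) := by
  rw [Nat.pow_mod]
  have : m % 7 < 7 := Nat.mod_lt _ (by norm_num)
  generalize m % 7 = r at *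
  interval_cases r <;> simp

theorem pow4_mod3 (m : ℕ) : (m % 3 = 0 ∧ m ^ 4 % 3 = 0) ∨ (m % 3 ≠ 0 ∧ m ^ 4 % 3 = 1) := by
  rw [Nat.pow_mod]
  have : m % 3 < 3 := Nat.mod_lt _ (by norm_num)
  generalize m % 3 = r at *
  interval_cases r <;> simp

theorem pow4_mod4 (m : ℕ) : (m % 2 = 0 ∧ m ^ 4 % 4 = 0) ∨ (m % 2 = 1 ∧ m ^ 4 % 4 = 1) := by
  have h : m % 2 = m % 4 % 2 := by omega
  rw [Nat.pow_mod, h]
  have : m % 4 < 4 := Nat.mod_lt _ (by norm_num)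
  generalize m % 4 = r at *
  interval_cases r <;> simp

theorem pow2_mod2 (m : ℕ) : ((m : ℤ) ^ 2) % 2 = (m : ℤ) % 2 := by
  rcases sq_mod_four m with h | h <;> omega

theorem adm_odd (n m : ℕ) (hlo : 13 * n ≤ m ^ 4) (hhi : m ^ 4 ≤ 14 * n) (h2 : m % 2 = 1)
    (h7 : m % 7 ≠ 0) (h3 : (n % 3 = 0 ∧ m % 3 = 0) ∨ (n % 3 = 1 ∧ m % 3 ≠ 0) ∨ n % 3 = 2) :
    Adm n := by
  have a7 := pow4_mod7 m
  have a3 := pow4_mod3 m
  have a4 := pow4_mod4 m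
  obtain ⟨T, hT⟩ : ∃ T, T + 2 * m ^ 4 = 28 * n := ⟨28 * n - 2 * m ^ 4, by omega⟩
  have b4 : T % 4 = 2 := by clear a7 a3 h3 hlo hhi; omega
  have b7 : T % 7 = 3 ∨ T % 7 = 5 ∨ T % 7 = 6 := by clear a4 a3 h3 hlo hhi b4; omega
  have b3 : T % 3 ≠ 1 := by clear a4 a7 hlo hhi b4 b7; omega
  clear a7 a3 a4 h3
  obtain ⟨X, Y, Z, ⟨h1, hX, hY, hXZ⟩, h⟩ := good_odd T b4 b7 b3
  clear b4 b7 b3
  have hT' : (T : ℤ) + 2 * (m : ℤ) ^ 4 = 28 * n := by exact_mod_cast hT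
  have := pow2_mod2 m
  exact finish n m X Y Z (by linear_combination h1 + hT') h hY hXZ (by omega) hlo

theorem adm_even (n k : ℕ) (hlo : 13 * n ≤ (2 * k) ^ 4) (hhi : (2 * k) ^ 4 ≤ 14 * n)
    (h : n % 8 = 3 ∨ n % 8 = 5 ∨ n % 8 = 7 ∨ n % 4 = 2 ∨ (n % 32 = 4 ∧ k % 2 = 1) ∨
      (k % 2 = 0 ∧ (n % 32 = 12 ∨ n % 32 = 20 ∨ n % 32 = 28 ∨ n % 16 = 8))) : Adm n := by
  have a7 := pow4_mod7 k
  have a4 := pow4_mod4 k
  have e : (2 * k) ^ 4 = 16 * k ^ 4 := by ring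
  obtain ⟨T, hT⟩ : ∃ T, T + 8 * k ^ 4 = 7 * n := ⟨7 * n - 8 * k ^ 4, by omega⟩
  have b7 : (T : ℤ) % 7 = 0 ∨ (T : ℤ) % 7 = 3 ∨ (T : ℤ) % 7 = 5 ∨ (T : ℤ) % 7 = 6 := by
    clear a4 h hlo hhi e; omega
  clear a7
  have h3 : ∃ X Y Z : ℤ, X ^ 2 + Y ^ 2 + Z ^ 2 = T := by
    clear b7 hlo hhi e
    by_cases h4 : T % 4 = 0
    · obtain ⟨T', rfl⟩ : ∃ T', T = 4 * T' := ⟨T / 4, by omega⟩
      obtain ⟨X, Y, Z, hh⟩ := three_squares T' (by omega)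
      exact ⟨2 * X, 2 * Y, 2 * Z, by push_cast; linear_combination 4 * hh⟩
    · exact three_squares T (by omega)
  obtain ⟨X0, Y0, Z0, h0⟩ := h3
  obtain ⟨X, Y, Z, h1, hp, h7⟩ := good_even T X0 Y0 Z0 h0 b7
  clear b7 a4 h e hhi
  have hT' : (T : ℤ) + 8 * (k : ℤ) ^ 4 = 7 * n := by exact_mod_cast hT
  have := pow2_mod2 (2 * k)
  exact finish n (2 * k) (2 * X) (2 * Y) (2 * Z)
    (by push_cast; linear_combination 4 * h1 + 4 * hT') (by omega) (by omega) (by omega)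
    (by omega) hlo

theorem window (n t m g M : ℕ) (h1 : t ^ 4 ≤ 14 * n) (h2 : 14 * n < (t + 1) ^ 4) (hm : m ≤ t)
    (hg : t + 1 ≤ m + g) (hM : M ≤ m) (hM0 : 0 < M) (hc : 13 * (M + g) ^ 4 ≤ 14 * M ^ 4) :
    13 * n ≤ m ^ 4 ∧ m ^ 4 ≤ 14 * n := by
  refine ⟨?_, le_trans (Nat.pow_le_pow_left hm 4) h1⟩
  have a1 : (m + g) * M ≤ m * (M + g) := by nlinarith
  have a2 : ((m + g) * M) ^ 4 ≤ (m * (M + g)) ^ 4 := Nat.pow_le_pow_left a1 4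
  rw [mul_pow, mul_pow] at a2
  have a3 : 13 * (m + g) ^ 4 * M ^ 4 ≤ 14 * m ^ 4 * M ^ 4 :=
    calc 13 * (m + g) ^ 4 * M ^ 4 = 13 * ((m + g) ^ 4 * M ^ 4) := by ring
      _ ≤ 13 * (m ^ 4 * (M + g) ^ 4) := Nat.mul_le_mul_left _ a2
      _ = m ^ 4 * (13 * (M + g) ^ 4) := by ring
      _ ≤ m ^ 4 * (14 * M ^ 4) := Nat.mul_le_mul_left _ hc
      _ = _ := by ring
  have a4 : 13 * (m + g) ^ 4 ≤ 14 * m ^ 4 := Nat.le_of_mul_le_mul_right a3 (by positivity)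
  have a5 : (t + 1) ^ 4 ≤ (m + g) ^ 4 := Nat.pow_le_pow_left hg 4
  omega

theorem exists_root4 (N : ℕ) : ∃ t : ℕ, t ^ 4 ≤ N ∧ N < (t + 1) ^ 4 := by
  refine ⟨Nat.sqrt (Nat.sqrt N), ?_, ?_⟩
  · have a := Nat.sqrt_le' N
    have b := Nat.sqrt_le' (Nat.sqrt N)
    calc Nat.sqrt (Nat.sqrt N) ^ 4 = (Nat.sqrt (Nat.sqrt N) ^ 2) ^ 2 := by ring
      _ ≤ Nat.sqrt N ^ 2 := Nat.pow_le_pow_left b 2
      _ ≤ N := a
  · have a : N < (Nat.sqrt N + 1) ^ 2 := Nat.lt_succ_sqrt' N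
    have b : Nat.sqrt N < (Nat.sqrt (Nat.sqrt N) + 1) ^ 2 := Nat.lt_succ_sqrt' _
    calc N < (Nat.sqrt N + 1) ^ 2 := a
      _ ≤ ((Nat.sqrt (Nat.sqrt N) + 1) ^ 2) ^ 2 := Nat.pow_le_pow_left b 2
      _ = _ := by ring

theorem root_ge {N t c : ℕ} (h : N < (t + 1) ^ 4) (hc : c ^ 4 ≤ N) : c ≤ t := by
  by_contra hlt
  have : (t + 1) ^ 4 ≤ c ^ 4 := Nat.pow_le_pow_left (by omega) 4
  omega

theorem coprime_near (u : ℕ) :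
    ∃ i < 6, (u + i) % 2 = 1 ∧ (u + i) % 3 ≠ 0 ∧ (u + i) % 7 ≠ 0 := by
  have key : ∀ r < 42, ∃ i < 6, (r + i) % 2 = 1 ∧ (r + i) % 3 ≠ 0 ∧ (r + i) % 7 ≠ 0 := by
    decide +kernel
  obtain ⟨i, hi, h1, h2, h3⟩ := key (u % 42) (Nat.mod_lt _ (by norm_num))
  exact ⟨i, hi, by omega, by omega, by omega⟩

theorem adm_one (n : ℕ) (h8 : n % 8 = 1) : Adm n := by
  by_cases hB : n < 8 * 10200 ^ 2
  · exact admB n h8 hB
  obtain ⟨t, h1, h2⟩ := exists_root4 (14 * n)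
  have ht : 328 ≤ t := root_ge h2 (by omega)
  by_cases h3 : n % 3 = 0
  · obtain ⟨m, hm1, hm2, hm3⟩ : ∃ m, m ≤ t ∧ t + 1 ≤ m + 6 ∧ m % 6 = 3 :=
      ⟨(t - 3) / 6 * 6 + 3, by omega, by omega, by omega⟩
    by_cases h7 : m % 7 = 0
    · by_cases hlo : 13 * n ≤ (m - 6) ^ 4
      · exact adm_odd n (m - 6) hlo (le_trans (Nat.pow_le_pow_left (by omega) 4) h1) (by omega)
          (by omega) (by omega)
      · have hm : m < 648 := by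
          by_contra hge
          exact hlo (window n t (m - 6) 12 642 h1 h2 (by omega) (by omega) (by omega)
            (by norm_num) (by norm_num)).1
        have hhi : 14 * n < (m + 6) ^ 4 := lt_of_lt_of_le h2 (Nat.pow_le_pow_left hm2 4)
        have : m = 357 ∨ m = 399 ∨ m = 441 ∨ m = 483 ∨ m = 525 ∨ m = 567 ∨ m = 609 := by omega
        apply admC n h8
        rcases this with rfl | rfl | rfl | rfl | rfl | rfl | rfl <;> norm_num at hlo hhi ⊢ <;> omega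
    · obtain ⟨a, b⟩ := window n t m 6 321 h1 h2 hm1 hm2 (by omega) (by norm_num) (by norm_num)
      exact adm_odd n m a b (by omega) h7 (by omega)
  · obtain ⟨m, hm1, hm2, hm3⟩ : ∃ m, m ≤ t ∧ t + 1 ≤ m + 6 ∧ m % 2 = 1 ∧ m % 3 ≠ 0 ∧ m % 7 ≠ 0 := by
      obtain ⟨u, rfl⟩ : ∃ u, t = u + 5 := ⟨t - 5, by omega⟩
      obtain ⟨i, hi, h⟩ := coprime_near u
      exact ⟨u + i, by omega, by omega, h⟩
    obtain ⟨a, b⟩ := window n t m 6 321 h1 h2 hm1 hm2 (by omega) (by norm_num) (by norm_num)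
    exact adm_odd n m a b hm3.1 hm3.2.2 (by omega)

theorem adm_all (n : ℕ) : Adm n := by
  induction n using Nat.strong_induction_on with
  | _ n ih =>
    by_cases hA : n < 2 * 9100 ^ 2
    · exact admA n hA
    by_cases h16 : n % 16 = 0
    · obtain ⟨k, rfl⟩ : ∃ k, n = 16 * k := ⟨n / 16, by omega⟩
      obtain ⟨x, y, z, w, m, h1, h2⟩ := ih k (by omega)
      exact ⟨4 * x, 4 * y, 4 * z, 4 * w, 2 * m, by rw [h1]; ring, by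
        rw [mul_pow, ← h2]; ring⟩
    by_cases h8 : n % 8 = 1
    · exact adm_one n h8
    obtain ⟨t, h1, h2⟩ := exists_root4 (14 * n)
    have ht : 219 ≤ t := root_ge h2 (by omega)
    by_cases h32 : n % 32 = 4
    · obtain ⟨k, hk1, hk2, hk3⟩ : ∃ k, 2 * k ≤ t ∧ t + 1 ≤ 2 * k + 4 ∧ k % 2 = 1 :=
        ⟨(t - 2) / 4 * 2 + 1, by omega, by omega, by omega⟩
      obtain ⟨a, b⟩ := window n t (2 * k) 4 214 h1 h2 hk1 hk2 (by omega) (by norm_num)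
        (by norm_num)
      exact adm_even n k a b (by omega)
    · obtain ⟨k, hk1, hk2, hk3⟩ : ∃ k, 2 * k ≤ t ∧ t + 1 ≤ 2 * k + 4 ∧ k % 2 = 0 :=
        ⟨t / 4 * 2, by omega, by omega, by omega⟩
      obtain ⟨a, b⟩ := window n t (2 * k) 4 214 h1 h2 hk1 hk2 (by omega) (by norm_num)
        (by norm_num)
      exact adm_even n k a b (by omega)

end Pool.Agent.Lib.MP_b1de50_nt
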