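import Mathlib.NumberTheory.LSeries.PrimesInAP
import Mathlib.NumberTheory.SumTwoSquares
import Mathlib.NumberTheory.LegendreSymbol.JacobiSymbol

/-! Legendre's three-square theorem (sufficiency), via Dirichlet's theorem, a pigeonhole proof of
Legendre's ternary theorem, and the Aubry-Davenport-Cassels descent. -/

namespace Pool.Agent.Lib.MP_b1de50_nt

open NumberTheorySymbols

theorem aubry (n : ℤ) : ∀ (t : ℕ), 0 < t → ∀ a b c : ℤ, a ^ 2 + b ^ 2 + c ^ 2 = n * (t : ℤ) ^ 2 →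
    ∃ x y z : ℤ, x ^ 2 + y ^ 2 + z ^ 2 = n := by
  intro t
  induction t using Nat.strong_induction_on with
  | _ t ih =>
    intro ht a b c h
    have ht' : (0 : ℤ) < t := by exact_mod_cast ht
    have near : ∀ u : ℤ, ∃ v : ℤ, 4 * (u - t * v) ^ 2 ≤ (t : ℤ) ^ 2 := by
      intro u
      refine ⟨(2 * u + t) / (2 * t), ?_⟩
      have h1 := Int.emod_nonneg (2 * u + t) (show (2 * (t : ℤ)) ≠ 0 by omega)
      have h2 := Int.emod_lt_of_pos (2 * u + t) (show (0 : ℤ) < 2 * t by omega)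
      have h3 := Int.mul_ediv_add_emod (2 * u + t) (2 * t)
      set r := (2 * u + t) % (2 * t)
      set v := (2 * u + t) / (2 * t)
      have : 2 * (u - t * v) = r - t := by linarith
      nlinarith
    obtain ⟨x, hx⟩ := near a
    obtain ⟨y, hy⟩ := near b
    obtain ⟨z, hz⟩ := near c
    set s : ℤ := t * (x ^ 2 + y ^ 2 + z ^ 2 + n) - 2 * (a * x + b * y + c * z) with hs
    have hts : t * s = (a - t * x) ^ 2 + (b - t * y) ^ 2 + (c - t * z) ^ 2 := by
      rw [hs]; linear_combination (-1 : ℤ) * h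
    have hs0 : 0 ≤ s := by
      by_contra hneg
      have : t * s < 0 := mul_neg_of_pos_of_neg ht' (by omega)
      nlinarith [sq_nonneg (a - t * x), sq_nonneg (b - t * y), sq_nonneg (c - t * z)]
    have hst : s < t := by
      by_contra hge
      have : t * t ≤ t * s := mul_le_mul_of_nonneg_left (by omega) ht'.le
      nlinarith
    rcases hs0.eq_or_lt with h0 | hpos
    · refine ⟨x, y, z, ?_⟩
      rw [← h0, mul_zero] at hts
      have e1 : a - t * x = 0 := by nlinarith [sq_nonneg (a - t * x), sq_nonneg (b - t * y), sq_nonneg (c - t * z)]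
      have e2 : b - t * y = 0 := by nlinarith [sq_nonneg (a - t * x), sq_nonneg (b - t * y), sq_nonneg (c - t * z)]
      have e3 : c - t * z = 0 := by nlinarith [sq_nonneg (a - t * x), sq_nonneg (b - t * y), sq_nonneg (c - t * z)]
      have : (t : ℤ) ^ 2 * (x ^ 2 + y ^ 2 + z ^ 2 - n) = 0 := by
        have ha : a = t * x := by linarith
        have hb : b = t * y := by linarith
        have hc : c = t * z := by linarith
        rw [ha, hb, hc] at h
        linear_combination h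
      rcases mul_eq_zero.1 this with h' | h'
      · exact absurd h' (by positivity)
      · linarith
    · obtain ⟨s', hs'⟩ := Int.eq_ofNat_of_zero_le hs0
      have := ih s' (by omega) (by omega)
        ((x ^ 2 + y ^ 2 + z ^ 2 - n) * a + 2 * (n * t - (a * x + b * y + c * z)) * x)
        ((x ^ 2 + y ^ 2 + z ^ 2 - n) * b + 2 * (n * t - (a * x + b * y + c * z)) * y)
        ((x ^ 2 + y ^ 2 + z ^ 2 - n) * c + 2 * (n * t - (a * x + b * y + c * z)) * z)
        (by rw [← hs', hs]; linear_combination (x ^ 2 + y ^ 2 + z ^ 2 - n) ^ 2 * h)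
      exact this

theorem sq_le_mul_self {x s : ℤ} (h1 : -s ≤ x) (h2 : x ≤ s) : x ^ 2 ≤ s * s := by nlinarith

theorem legendre_core (n b : ℕ) (hn : 0 < n) (hb : 0 < b) (h1 : n ∣ b + 1) (β : ℤ)
    (h2 : (b : ℤ) ∣ β ^ 2 - n) : ∃ x y z : ℤ, z ≠ 0 ∧ x ^ 2 + b * y ^ 2 = n * z ^ 2 := by
  have : NeZero n := ⟨hn.ne'⟩
  have : NeZero b := ⟨hb.ne'⟩
  set X := Nat.sqrt (b * n - 1) + 1 with hX
  set Y := Nat.sqrt n + 1 with hY
  set Z := Nat.sqrt (b - 1) + 1 with hZ
  have hbn : 0 < b * n := Nat.mul_pos hb hn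
  have hX1 : b * n ≤ X * X := by
    have : b * n - 1 < X * X := Nat.lt_succ_sqrt (b * n - 1)
    omega
  have hY1 : n < Y * Y := Nat.lt_succ_sqrt n
  have hZ1 : b ≤ Z * Z := by
    have : b - 1 < Z * Z := Nat.lt_succ_sqrt (b - 1)
    omega
  have hX2 := Nat.sqrt_le (b * n - 1)
  have hY2 := Nat.sqrt_le n
  have hZ2 := Nat.sqrt_le (b - 1)
  have hcard : n * b < X * (Y * Z) := by
    by_contra hle
    have hle' : X * (Y * Z) ≤ n * b := by omega
    have e1 : (X * (Y * Z)) * (X * (Y * Z)) ≤ (n * b) * (n * b) := Nat.mul_le_mul hle' hle'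
    have e2 : (b * n) * (n * b) < (X * X) * ((Y * Y) * (Z * Z)) :=
      calc (b * n) * (n * b) < (b * n) * ((Y * Y) * b) :=
            Nat.mul_lt_mul_of_pos_left (Nat.mul_lt_mul_of_pos_right hY1 hb) hbn
        _ ≤ _ := Nat.mul_le_mul hX1 (Nat.mul_le_mul_left _ hZ1)
    have e3 : (X * X) * ((Y * Y) * (Z * Z)) = (X * (Y * Z)) * (X * (Y * Z)) := by ring
    have e4 : (b * n) * (n * b) = (n * b) * (n * b) := by ring
    omega
  obtain ⟨u, hu, v, hv, huv, hf⟩ := Finset.exists_ne_map_eq_of_card_lt_of_maps_to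
    (s := Finset.range X ×ˢ Finset.range Y ×ˢ Finset.range Z)
    (t := (Finset.univ : Finset (ZMod n × ZMod b)))
    (f := fun p => ((((p.1 : ℤ) - (p.2.1 : ℤ) : ℤ) : ZMod n), (((p.1 : ℤ) - β * (p.2.2 : ℤ) : ℤ) : ZMod b)))
    (by simpa using hcard) (fun _ _ => Finset.mem_univ _)
  obtain ⟨x1, y1, z1⟩ := u
  obtain ⟨x2, y2, z2⟩ := v
  simp only [Finset.mem_product, Finset.mem_range] at hu hv
  simp only [Prod.mk.injEq, ZMod.intCast_eq_intCast_iff_dvd_sub] at hf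
  obtain ⟨⟨k, hk⟩, ⟨l, hl⟩⟩ := hf
  set x : ℤ := x2 - x1 with hx
  set y : ℤ := y2 - y1 with hy
  set z : ℤ := z2 - z1 with hz
  have hne : ¬ (x = 0 ∧ y = 0 ∧ z = 0) := by
    rintro ⟨a1, a2, a3⟩
    apply huv
    have b1 : x1 = x2 := by omega
    have b2 : y1 = y2 := by omega
    have b3 : z1 = z2 := by omega
    rw [b1, b2, b3]
  have bx : x ^ 2 < b * n := by
    have h0 : ((Nat.sqrt (b * n - 1) : ℕ) : ℤ) * (Nat.sqrt (b * n - 1) : ℕ) < b * n := by
      have : Nat.sqrt (b * n - 1) * Nat.sqrt (b * n - 1) < b * n := by omega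
      exact_mod_cast this
    have h3 : x ≤ (Nat.sqrt (b * n - 1) : ℕ) := by omega
    have h4 : -((Nat.sqrt (b * n - 1) : ℕ) : ℤ) ≤ x := by omega
    exact lt_of_le_of_lt (sq_le_mul_self h4 h3) h0
  have by' : y ^ 2 ≤ n := by
    have h0 : ((Nat.sqrt n : ℕ) : ℤ) * (Nat.sqrt n : ℕ) ≤ n := by exact_mod_cast hY2
    have h3 : y ≤ (Nat.sqrt n : ℕ) := by omega
    have h4 : -((Nat.sqrt n : ℕ) : ℤ) ≤ y := by omega
    exact le_trans (sq_le_mul_self h4 h3) h0
  have bz : z ^ 2 < b := by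
    have h0 : ((Nat.sqrt (b - 1) : ℕ) : ℤ) * (Nat.sqrt (b - 1) : ℕ) < b := by
      have : Nat.sqrt (b - 1) * Nat.sqrt (b - 1) < b := by omega
      exact_mod_cast this
    have h3 : z ≤ (Nat.sqrt (b - 1) : ℕ) := by omega
    have h4 : -((Nat.sqrt (b - 1) : ℕ) : ℤ) ≤ z := by omega
    exact lt_of_le_of_lt (sq_le_mul_self h4 h3) h0
  obtain ⟨g, hg⟩ := h1
  obtain ⟨j, hj⟩ := h2
  have hg' : (b : ℤ) + 1 = n * g := by exact_mod_cast hg
  have hk' : x = y + n * k := by linarith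
  have hl' : x = β * z + b * l := by linarith
  have d1 : (n : ℤ) ∣ x ^ 2 + b * y ^ 2 - n * z ^ 2 :=
    ⟨g * y ^ 2 + 2 * y * k + n * k ^ 2 - z ^ 2, by rw [hk']; linear_combination y ^ 2 * hg'⟩
  have d2 : (b : ℤ) ∣ x ^ 2 + b * y ^ 2 - n * z ^ 2 :=
    ⟨j * z ^ 2 + 2 * β * z * l + b * l ^ 2 + y ^ 2, by
      rw [hl']; linear_combination z ^ 2 * hj⟩
  have hcop : IsCoprime (n : ℤ) (b : ℤ) := ⟨g, -1, by linarith⟩
  obtain ⟨e, he⟩ := hcop.mul_dvd d1 d2
  have hn' : (0 : ℤ) < n := by exact_mod_cast hn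
  have hb' : (0 : ℤ) < b := by exact_mod_cast hb
  have hnb : (0 : ℤ) < n * b := mul_pos hn' hb'
  have up : e < 2 := by
    by_contra hc
    have : (n : ℤ) * b * 2 ≤ n * b * e := mul_le_mul_of_nonneg_left (by omega) hnb.le
    have h5 : (b : ℤ) * y ^ 2 ≤ b * n := mul_le_mul_of_nonneg_left by' hb'.le
    have h6 : (0 : ℤ) ≤ n * z ^ 2 := by positivity
    linarith
  have lo : -1 < e := by
    by_contra hc
    have : (n : ℤ) * b * e ≤ n * b * (-1) := mul_le_mul_of_nonneg_left (by omega) hnb.le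
    have h5 : (n : ℤ) * z ^ 2 < n * b := mul_lt_mul_of_pos_left bz hn'
    have h6 : (0 : ℤ) ≤ b * y ^ 2 := by positivity
    linarith [sq_nonneg x]
  have : e = 0 ∨ e = 1 := by omega
  rcases this with rfl | rfl
  · refine ⟨x, y, z, ?_, by linarith⟩
    rintro h0
    apply hne
    rw [h0] at he
    have h6 : (0 : ℤ) ≤ b * y ^ 2 := by positivity
    have e1 : x ^ 2 = 0 := by linarith [sq_nonneg x]
    have e2 : (b : ℤ) * y ^ 2 = 0 := by linarith [sq_nonneg x]
    refine ⟨pow_eq_zero_iff (two_ne_zero) |>.1 e1, ?_, h0⟩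
    rcases mul_eq_zero.1 e2 with h | h
    · omega
    · exact pow_eq_zero_iff (two_ne_zero) |>.1 h
  · refine ⟨x * z + b * y, y * z - x, z ^ 2 + b, by positivity, ?_⟩
    linear_combination (z ^ 2 + b) * he

theorem three_of_core (n b : ℕ) (hn : 0 < n) (hb : 0 < b) (h1 : n ∣ b + 1) (β : ℤ)
    (h2 : (b : ℤ) ∣ β ^ 2 - n) (u v : ℤ) (h3 : u ^ 2 + v ^ 2 = b) :
    ∃ x y z : ℤ, x ^ 2 + y ^ 2 + z ^ 2 = n := by
  obtain ⟨x, y, z, hz, h⟩ := legendre_core n b hn hb h1 β h2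
  refine aubry n z.natAbs (Int.natAbs_pos.2 hz) x (u * y) (v * y) ?_
  rw [Int.natCast_natAbs, sq_abs, ← h, ← h3]; ring

theorem exists_root {n : ℤ} {p : ℕ} [Fact p.Prime] (h : J(n | p) = 1) :
    ∃ β : ℤ, (p : ℤ) ∣ β ^ 2 - n := by
  obtain ⟨r, hr⟩ := ZMod.isSquare_of_jacobiSym_eq_one h
  refine ⟨(r.val : ℤ), ?_⟩
  rw [← ZMod.intCast_eq_intCast_iff_dvd_sub]
  push_cast
  rw [hr, ZMod.natCast_zmod_val]; ring

theorem jac_neg_one {k : ℕ} {a : ℤ} (hk : Odd k) (h : (k : ℤ) ∣ a + 1) :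
    J(a | k) = ZMod.χ₄ k := by
  rw [← jacobiSym.at_neg_one hk]
  apply jacobiSym.mod_left'
  exact (Int.emod_emod_of_dvd _ (dvd_refl _)).symm.trans (by
    rw [Int.emod_emod_of_dvd _ (dvd_refl _)]
    exact (Int.emod_eq_emod_iff_emod_sub_eq_zero.2 (by
      rw [sub_neg_eq_add]; exact Int.emod_eq_zero_of_dvd h)))

theorem three_squares (n : ℕ) (h : n % 4 = 1 ∨ n % 4 = 2 ∨ n % 8 = 3) :
    ∃ x y z : ℤ, x ^ 2 + y ^ 2 + z ^ 2 = n := by
  have hn : 0 < n := by omega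
  rcases h with h | h | h
  · have hc : (2 * n - 1).Coprime (4 * n) := by
      obtain ⟨k, rfl⟩ : ∃ k, n = k + 1 := ⟨n - 1, by omega⟩
      rw [← Nat.isCoprime_iff_coprime]
      have : 2 * (k + 1) - 1 = 2 * k + 1 := by omega
      rw [this]
      exact ⟨-(2 * k + 3), k + 1, by push_cast; ring⟩
    obtain ⟨p, -, hp, hm⟩ := Nat.forall_exists_prime_gt_and_modEq 0 (by omega : 4 * n ≠ 0) hc
    have := Fact.mk hp
    obtain ⟨c, hc⟩ := (Nat.modEq_iff_dvd.1 hm.symm)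
    have hc' : (p : ℤ) = 2 * n - 1 + 4 * n * c := by
      rw [Nat.cast_sub (by omega)] at hc; push_cast at hc; linarith
    have hp4 : p % 4 = 1 := by
      have : (p : ℤ) = 2 * n - 1 + 4 * (n * c) := by linarith
      omega
    have hd : (n : ℤ) ∣ p + 1 := ⟨2 + 4 * c, by linarith⟩
    have hodd : Odd n := Nat.odd_iff.2 (by omega)
    have hJ : J((n : ℤ) | p) = 1 := by
      rw [jacobiSym.quadratic_reciprocity_one_mod_four' hodd hp4, jac_neg_one hodd hd,
        ZMod.χ₄_nat_one_mod_four h]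
    obtain ⟨β, hβ⟩ := exists_root hJ
    obtain ⟨u, v, huv⟩ := Nat.Prime.sq_add_sq (p := p) (by omega)
    exact three_of_core n p hn hp.pos (by exact_mod_cast hd) β hβ u v (by exact_mod_cast huv)
  · obtain ⟨k, rfl⟩ : ∃ k, n = 2 * k := ⟨n / 2, by omega⟩
    have hc : (2 * k - 1).Coprime (8 * k) := by
      obtain ⟨j, rfl⟩ : ∃ j, k = 2 * j + 1 := ⟨k / 2, by omega⟩
      have : 2 * (2 * j + 1) - 1 = 4 * j + 1 := by omega
      rw [this]
      apply Nat.Coprime.mul_right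
      · have : Nat.Coprime (4 * j + 1) (2 ^ 3) := Nat.Coprime.pow_right _
          (Nat.coprime_two_right.2 (Nat.odd_iff.2 (by omega)))
        simpa using this
      · rw [← Nat.isCoprime_iff_coprime]
        exact ⟨-1, 2, by push_cast; ring⟩
    obtain ⟨p, -, hp, hm⟩ := Nat.forall_exists_prime_gt_and_modEq 0 (by omega : 8 * k ≠ 0) hc
    have := Fact.mk hp
    obtain ⟨c, hc⟩ := (Nat.modEq_iff_dvd.1 hm.symm)
    have hc' : (p : ℤ) = 2 * k - 1 + 8 * k * c := by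
      rw [Nat.cast_sub (by omega)] at hc; push_cast at hc; linarith
    have hp8 : (p : ℤ) = 2 * k - 1 + 8 * (k * c) := by linarith
    have hp4 : p % 4 = 1 := by omega
    have hd : (k : ℤ) ∣ p + 1 := ⟨2 + 8 * c, by linarith⟩
    have hd2 : ((2 * k : ℕ) : ℤ) ∣ p + 1 := ⟨1 + 4 * c, by push_cast; linarith⟩
    have hodd : Odd k := Nat.odd_iff.2 (by omega)
    have hpo : Odd p := Nat.odd_iff.2 (by omega)
    have hJ : J(((2 * k : ℕ) : ℤ) | p) = 1 := by
      push_cast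
      rw [jacobiSym.mul_left, jacobiSym.quadratic_reciprocity_one_mod_four' hodd hp4,
        jac_neg_one hodd hd, jacobiSym.at_two hpo, ZMod.χ₈_nat_eq_if_mod_eight,
        ZMod.χ₄_nat_eq_if_mod_four]
      have : (k % 4 = 1 ∧ p % 8 = 1) ∨ (k % 4 = 3 ∧ p % 8 = 5) := by omega
      have e1 : p % 2 ≠ 0 := by omega
      have e2 : k % 2 ≠ 0 := by omega
      rcases this with ⟨a, b⟩ | ⟨a, b⟩ <;> simp [a, b, e1, e2]
    obtain ⟨β, hβ⟩ := exists_root hJ
    obtain ⟨u, v, huv⟩ := Nat.Prime.sq_add_sq (p := p) (by omega)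
    exact three_of_core (2 * k) p hn hp.pos (by exact_mod_cast hd2) β hβ u v
      (by exact_mod_cast huv)
  · obtain ⟨j, rfl⟩ : ∃ j, n = 8 * j + 3 := ⟨n / 8, by omega⟩
    have hc : (4 * j + 1).Coprime (4 * (8 * j + 3)) := by
      apply Nat.Coprime.mul_right
      · have : Nat.Coprime (4 * j + 1) (2 ^ 2) := Nat.Coprime.pow_right _
          (Nat.coprime_two_right.2 (Nat.odd_iff.2 (by omega)))
        simpa using this
      · rw [← Nat.isCoprime_iff_coprime]
        exact ⟨-2, 1, by push_cast; ring⟩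
    obtain ⟨p, -, hp, hm⟩ :=
      Nat.forall_exists_prime_gt_and_modEq 0 (by omega : 4 * (8 * j + 3) ≠ 0) hc
    have := Fact.mk hp
    obtain ⟨c, hc⟩ := (Nat.modEq_iff_dvd.1 hm.symm)
    have hc' : (p : ℤ) = 4 * j + 1 + 4 * ((8 * j + 3) * c) := by push_cast at hc; linarith
    have hp4 : p % 4 = 1 := by omega
    have hd : ((8 * j + 3 : ℕ) : ℤ) ∣ 2 * p + 1 := ⟨1 + 8 * c, by push_cast; linarith⟩
    have hodd : Odd (8 * j + 3) := Nat.odd_iff.2 (by omega)
    have hJ : J(((8 * j + 3 : ℕ) : ℤ) | p) = 1 := by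
      rw [jacobiSym.quadratic_reciprocity_one_mod_four' hodd hp4]
      have e := jac_neg_one hodd hd
      rw [jacobiSym.mul_left, jacobiSym.at_two hodd, ZMod.χ₈_nat_eq_if_mod_eight,
        ZMod.χ₄_nat_three_mod_four (by omega)] at e
      have e1 : (8 * j + 3) % 2 ≠ 0 := by omega
      have e2 : (8 * j + 3) % 8 = 3 := by omega
      simp only [e1, e2] at e
      simpa using e
    obtain ⟨β, l, hl⟩ := exists_root hJ
    obtain ⟨u, v, huv⟩ := Nat.Prime.sq_add_sq (p := p) (by omega)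
    have huv' : (u : ℤ) ^ 2 + v ^ 2 = p := by exact_mod_cast huv
    have key : ∃ γ : ℤ, ((2 * p : ℕ) : ℤ) ∣ γ ^ 2 - ((8 * j + 3 : ℕ) : ℤ) := by
      have hcop : IsCoprime (2 : ℤ) (p : ℤ) := ⟨-(p / 2), 1, by omega⟩
      rcases Int.even_or_odd' β with ⟨b, hb | hb⟩
      · refine ⟨β + p, ?_⟩
        push_cast
        refine hcop.mul_dvd ?_ ⟨l + 2 * β + p, by push_cast at hl; linear_combination hl⟩
        obtain ⟨q, hq⟩ : ∃ q : ℤ, β + p = 2 * q + 1 := ⟨b + p / 2, by omega⟩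
        exact ⟨2 * q ^ 2 + 2 * q - 4 * j - 1, by rw [hq]; ring⟩
      · refine ⟨β, ?_⟩
        push_cast
        refine hcop.mul_dvd ?_ ⟨l, by push_cast at hl; linear_combination hl⟩
        exact ⟨2 * b ^ 2 + 2 * b - 4 * j - 1, by rw [hb]; ring⟩
    obtain ⟨γ, hγ⟩ := key
    exact three_of_core (8 * j + 3) (2 * p) hn (by have := hp.pos; omega)
      (by exact_mod_cast hd) γ hγ (u + v) (u - v) (by push_cast; linear_combination 2 * huv')

end Pool.Agent.Lib.MP_b1de50_nt
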